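import Mathlib

/-!
# MP_7875f2_co : the formula for `sat(K_{n₁,n₂}, C_{2ℓ})` is false

For `ℓ = 4` and all `n₁, n₂ ≥ 6` there is a `C₈`-saturated spanning subgraph of `K_{n₁,n₂}` with
`n₁ + n₂ + 3` edges, two fewer than the conjectured value `n₁ + n₂ + 4² - 3·4 + 1`.
-/

namespace Pool.Agent.Results.MP_7875f2_co.EvenCycleFormulaFails

open SimpleGraph

/-- `H` is `F`-saturated relative to `G`: `H` is a (spanning) subgraph of `G`, it contains no copy
of `F`, and adding any edge of `G` that is missing from `H` creates a copy of `F`. -/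
structure IsSaturatedIn {V W : Type*} (F : SimpleGraph W) (G H : SimpleGraph V) : Prop where
  /-- `H` is a spanning subgraph of `G`. -/
  le : H ≤ G
  /-- `H` has no copy of `F`. -/
  free : ¬ F ⊑ H
  /-- every missing edge of `G` creates a copy of `F`. -/
  sat : ∀ e ∈ G.edgeSet \ H.edgeSet, F ⊑ H ⊔ fromEdgeSet {e}

/-- The saturation number `sat(G, F)`. -/
noncomputable def sat {V W : Type*} (G : SimpleGraph V) (F : SimpleGraph W) : ℕ :=
  sInf {m : ℕ | ∃ H : SimpleGraph V, IsSaturatedIn F G H ∧ H.edgeSet.ncard = m}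

/-- The matrix of types: `A a b` says that a vertex of type `a` on the left is joined to a vertex
of type `b` on the right.  Type `5` is the type of leaves. -/
def A : Fin 6 → Fin 6 → Bool :=
  ![![true, true, true, true, true, false],
    ![false, true, true, false, true, false],
    ![false, false, false, false, true, true],
    ![true, false, true, false, false, false],
    ![false, false, true, true, false, false],
    ![false, true, false, false, false, false]]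

/-- The type of a vertex. -/
def ty {n : ℕ} (i : Fin n) : Fin 6 := ⟨min i.1 5, by omega⟩

/-- The graph. -/
def Hg (n₁ n₂ : ℕ) : SimpleGraph (Fin n₁ ⊕ Fin n₂) where
  Adj u v := (∃ i j, u = Sum.inl i ∧ v = Sum.inr j ∧ A (ty i) (ty j) = true) ∨
    (∃ i j, u = Sum.inr j ∧ v = Sum.inl i ∧ A (ty i) (ty j) = true)
  symm := ⟨by
    rintro u v (⟨i, j, rfl, rfl, h⟩ | ⟨i, j, rfl, rfl, h⟩)
    · exact Or.inr ⟨i, j, rfl, rfl, h⟩
    · exact Or.inl ⟨i, j, rfl, rfl, h⟩⟩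
  loopless := ⟨by
    rintro u (⟨i, j, h, h', _⟩ | ⟨i, j, h, h', _⟩)
    · rw [h] at h'; exact absurd h' (by simp)
    · rw [h] at h'; exact absurd h' (by simp)⟩

lemma adj_lr {n₁ n₂ : ℕ} {i : Fin n₁} {j : Fin n₂} :
    (Hg n₁ n₂).Adj (Sum.inl i) (Sum.inr j) ↔ A (ty i) (ty j) = true := by
  constructor
  · rintro (⟨i', j', h1, h2, h⟩ | ⟨i', j', h1, h2, h⟩)
    · cases h1; cases h2; exact h
    · cases h1
  · intro h; exact Or.inl ⟨i, j, rfl, rfl, h⟩

lemma adj_rl {n₁ n₂ : ℕ} {i : Fin n₁} {j : Fin n₂} :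
    (Hg n₁ n₂).Adj (Sum.inr j) (Sum.inl i) ↔ A (ty i) (ty j) = true := by
  rw [SimpleGraph.adj_comm]; exact adj_lr

lemma not_adj_ll {n₁ n₂ : ℕ} {i i' : Fin n₁} : ¬ (Hg n₁ n₂).Adj (Sum.inl i) (Sum.inl i') := by
  rintro (⟨_, _, h1, h2, h⟩ | ⟨_, _, h1, h2, h⟩)
  · cases h2
  · cases h1

lemma not_adj_rr {n₁ n₂ : ℕ} {i i' : Fin n₂} : ¬ (Hg n₁ n₂).Adj (Sum.inr i) (Sum.inr i') := by
  rintro (⟨_, _, h1, h2, h⟩ | ⟨_, _, h1, h2, h⟩)
  · cases h1
  · cases h2

/-- Type-level vertices: `Fin 12`, `0..5` are the left types, `6..11` the right types. -/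
def vt {n₁ n₂ : ℕ} : Fin n₁ ⊕ Fin n₂ → Fin 12
  | Sum.inl i => ⟨(ty i).1, by have := (ty i).2; omega⟩
  | Sum.inr j => ⟨6 + (ty j).1, by have := (ty j).2; omega⟩

/-- Type-level adjacency. -/
def B (a b : Fin 12) : Bool :=
  if h : a.1 < 6 ∧ 6 ≤ b.1 then A ⟨a.1, h.1⟩ ⟨b.1 - 6, by omega⟩
  else if h : b.1 < 6 ∧ 6 ≤ a.1 then A ⟨b.1, h.1⟩ ⟨a.1 - 6, by omega⟩ else false

lemma adj_iff {n₁ n₂ : ℕ} (u v : Fin n₁ ⊕ Fin n₂) :
    (Hg n₁ n₂).Adj u v ↔ B (vt u) (vt v) = true := by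
  rcases u with i | j <;> rcases v with i' | j'
  · have h1 := (ty i).2
    have h2 := (ty i').2
    have h3 : ¬ (6 ≤ (ty i').1) := by omega
    have h4 : ¬ (6 ≤ (ty i).1) := by omega
    simp only [not_adj_ll, B, vt, h3, h4, and_false, dite_false, Bool.false_eq_true]
  · rw [adj_lr]
    have h1 := (ty i).2
    have h2 := (ty j').2
    simp [B, vt]
  · rw [adj_rl]
    have h1 := (ty i').2
    have h2 := (ty j).2
    simp [B, vt]
  · have h1 := (ty j).2
    have h2 := (ty j').2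
    simp [not_adj_rr, B, vt]

/-- Only vertex number `k < 5` has type `k`. -/
lemma ty_inj {n : ℕ} {i j : Fin n} (h : ty i = ty j) (h5 : (ty i).1 ≠ 5) : i = j := by
  have h' : min i.1 5 = min j.1 5 := congrArg Fin.val h
  have h5' : min i.1 5 ≠ 5 := h5
  apply Fin.ext; omega

/-- The type is not a leaf type. -/
def core (a : Fin 12) : Bool := a.1 ≠ 5 && a.1 ≠ 11

lemma vt_inj {n₁ n₂ : ℕ} {u v : Fin n₁ ⊕ Fin n₂} (h : vt u = vt v) (hc : core (vt u) = true) :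
    u = v := by
  rcases u with i | j <;> rcases v with i' | j'
  · have h1 : (ty i).1 = (ty i').1 := by
      have h0 : (vt (Sum.inl i : Fin n₁ ⊕ Fin n₂)).1 = (vt (Sum.inl i' : Fin n₁ ⊕ Fin n₂)).1 :=
        congrArg Fin.val h
      exact h0
    have h2 : (ty i).1 ≠ 5 := by
      intro h5; simp [core, vt, h5] at hc
    exact congrArg Sum.inl (ty_inj (Fin.ext h1) h2)
  · have h1 : (ty i).1 = 6 + (ty j').1 := congrArg Fin.val h
    have := (ty i).2
    omega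
  · have h1 : 6 + (ty j).1 = (ty i').1 := congrArg Fin.val h
    have := (ty i').2
    omega
  · have h1 : 6 + (ty j).1 = 6 + (ty j').1 := congrArg Fin.val h
    have h2 : (ty j).1 ≠ 5 := by
      intro h5; simp [core, vt, h5] at hc
    exact congrArg Sum.inr (ty_inj (Fin.ext (by omega)) h2)

/-- A leaf type has only one neighbouring type, which is a core type. -/
lemma leaf_nbr : ∀ a : Fin 12, core a = false → ∀ b c : Fin 12, B a b = true → B a c = true →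
    b = c ∧ core b = true := by decide

set_option synthInstance.maxSize 4096 in
/-- There is no closed walk through eight distinct core types. -/
lemma no_core_cycle : ∀ a0 : Fin 12, core a0 = true →
    ∀ a1, B a0 a1 = true → core a1 = true →
    ∀ a2, B a1 a2 = true → core a2 = true → a2 ≠ a0 →
    ∀ a3, B a2 a3 = true → core a3 = true → a3 ≠ a1 →
    ∀ a4, B a3 a4 = true → core a4 = true → a4 ≠ a2 → a4 ≠ a0 →
    ∀ a5, B a4 a5 = true → core a5 = true → a5 ≠ a3 → a5 ≠ a1 →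
    ∀ a6, B a5 a6 = true → core a6 = true → a6 ≠ a4 → a6 ≠ a2 → a6 ≠ a0 →
    ∀ a7, B a6 a7 = true → core a7 = true → a7 ≠ a5 → a7 ≠ a3 → a7 ≠ a1 →
      B a7 a0 = false := by decide +kernel

set_option synthInstance.maxSize 4096 in
/-- All pairs of nonadjacent types are joined by a path with seven edges. -/
lemma paths : ∀ a b : Fin 12, a.1 < 6 → 6 ≤ b.1 → B a b = false →
    ∃ p1, (B a p1 = true ∧ core p1 = true) ∧
    ∃ p2, (B p1 p2 = true ∧ core p2 = true ∧ p2 ≠ a) ∧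
    ∃ p3, (B p2 p3 = true ∧ core p3 = true ∧ p3 ≠ p1) ∧
    ∃ p4, (B p3 p4 = true ∧ core p4 = true ∧ p4 ≠ p2 ∧ p4 ≠ a) ∧
    ∃ p5, (B p4 p5 = true ∧ core p5 = true ∧ p5 ≠ p3 ∧ p5 ≠ p1) ∧
    ∃ p6, (B p5 p6 = true ∧ core p6 = true ∧ p6 ≠ p4 ∧ p6 ≠ p2 ∧ p6 ≠ a) ∧
      (B p6 b = true ∧ [a, p1, p2, p3, p4, p5, p6, b].Nodup) := by decide +kernel

/-- A representative of each type. -/
def rep {n₁ n₂ : ℕ} (h₁ : 6 ≤ n₁) (h₂ : 6 ≤ n₂) (p : Fin 12) : Fin n₁ ⊕ Fin n₂ :=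
  if h : p.1 < 6 then Sum.inl ⟨p.1, by omega⟩ else Sum.inr ⟨p.1 - 6, by omega⟩

lemma vt_rep {n₁ n₂ : ℕ} (h₁ : 6 ≤ n₁) (h₂ : 6 ≤ n₂) (p : Fin 12) : vt (rep h₁ h₂ p) = p := by
  unfold rep
  split_ifs with h
  · apply Fin.ext
    show min p.1 5 = p.1
    omega
  · apply Fin.ext
    show 6 + min (p.1 - 6) 5 = p.1
    omega

lemma B_symm (a b : Fin 12) : B a b = B b a := by revert a b; decide

lemma B_side {a b : Fin 12} (h : B a b = true) : a.1 < 6 ↔ 6 ≤ b.1 := by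
  revert a b; decide

/-- The graph has no cycle on eight vertices. -/
lemma free (n₁ n₂ : ℕ) : ¬ cycleGraph 8 ⊑ Hg n₁ n₂ := by
  rintro ⟨f⟩
  have hadj : ∀ k : Fin 8, (Hg n₁ n₂).Adj (f k) (f (k + 1)) := by
    intro k
    apply f.toHom.map_adj
    have : (cycleGraph (6 + 2)).Adj k (k + 1) := by
      rw [cycleGraph_adj]; right; simp
    exact this
  have hinj : ∀ {x y : Fin 8}, f x = f y → x = y := fun {x y} h => f.injective h
  have hB : ∀ k : Fin 8, B (vt (f k)) (vt (f (k + 1))) = true := fun k => (adj_iff _ _).1 (hadj k)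
  have hcore : ∀ k : Fin 8, core (vt (f k)) = true := by
    intro k
    by_contra hc
    have hc' : core (vt (f k)) = false := by simpa using hc
    have h1 := hB k
    have h2 : B (vt (f k)) (vt (f (k + 7))) = true := by
      rw [B_symm]
      have := hB (k + 7)
      have e : k + 7 + 1 = k := by
        have : ∀ k : Fin 8, k + 7 + 1 = k := by decide
        exact this k
      rwa [e] at this
    obtain ⟨h3, h4⟩ := leaf_nbr _ hc' _ _ h1 h2
    have h5 := hinj (vt_inj h3 h4)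
    have h6 : ∀ k : Fin 8, k + 1 ≠ k + 7 := by decide
    exact h6 k h5
  have hne : ∀ x y : Fin 8, x ≠ y → vt (f x) ≠ vt (f y) := by
    intro x y hxy h
    exact hxy (hinj (vt_inj h (hcore x)))
  have := no_core_cycle (vt (f 0)) (hcore 0)
    (vt (f 1)) (hB 0) (hcore 1)
    (vt (f 2)) (hB 1) (hcore 2) (hne 2 0 (by decide))
    (vt (f 3)) (hB 2) (hcore 3) (hne 3 1 (by decide))
    (vt (f 4)) (hB 3) (hcore 4) (hne 4 2 (by decide)) (hne 4 0 (by decide))
    (vt (f 5)) (hB 4) (hcore 5) (hne 5 3 (by decide)) (hne 5 1 (by decide))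
    (vt (f 6)) (hB 5) (hcore 6) (hne 6 4 (by decide)) (hne 6 2 (by decide)) (hne 6 0 (by decide))
    (vt (f 7)) (hB 6) (hcore 7) (hne 7 5 (by decide)) (hne 7 3 (by decide)) (hne 7 1 (by decide))
  have h7 := hB 7
  have e : (7 : Fin 8) + 1 = 0 := by decide
  rw [e, this] at h7
  exact Bool.false_ne_true h7

/-- If `f : Fin 8 → V` is injective and `f k` is adjacent to `f (k + 1)`, we get a copy of `C₈`. -/
lemma copy_of {V : Type*} (G : SimpleGraph V) (f : Fin 8 → V) (hf : Function.Injective f)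
    (h : ∀ k : Fin 8, G.Adj (f k) (f (k + 1))) : cycleGraph 8 ⊑ G := by
  refine ⟨⟨⟨f, ?_⟩, hf⟩⟩
  intro a b hab
  have hab' : (cycleGraph (6 + 2)).Adj a b := hab
  rw [cycleGraph_adj] at hab'
  rcases hab' with h1 | h1
  · have : a = b + 1 := by rw [← h1]; simp
    rw [this]; exact (h b).symm
  · have : b = a + 1 := by rw [← h1]; simp
    rw [this]; exact h a

lemma inj8 {α : Type*} (x0 x1 x2 x3 x4 x5 x6 x7 : α)
    (h : [x0, x1, x2, x3, x4, x5, x6, x7].Nodup) :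
    Function.Injective ![x0, x1, x2, x3, x4, x5, x6, x7] := by
  rw [List.nodup_iff_injective_get] at h
  have e : ∀ k : Fin 8, ![x0, x1, x2, x3, x4, x5, x6, x7] k =
      [x0, x1, x2, x3, x4, x5, x6, x7].get k := by
    intro k
    fin_cases k <;> rfl
  intro x y hxy
  rw [e, e] at hxy
  exact h hxy

lemma sat_lr {n₁ n₂ : ℕ} (h₁ : 6 ≤ n₁) (h₂ : 6 ≤ n₂) (i : Fin n₁) (j : Fin n₂)
    (hn : ¬ (Hg n₁ n₂).Adj (Sum.inl i) (Sum.inr j)) :
    cycleGraph 8 ⊑ Hg n₁ n₂ ⊔ fromEdgeSet {s(Sum.inl i, Sum.inr j)} := by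
  set u : Fin n₁ ⊕ Fin n₂ := Sum.inl i with hu
  set v : Fin n₁ ⊕ Fin n₂ := Sum.inr j with hv
  have ha : (vt u).1 < 6 := (ty i).2
  have hb : 6 ≤ (vt v).1 := Nat.le_add_right 6 _
  have hab : B (vt u) (vt v) = false := by
    rw [adj_iff] at hn; simpa using hn
  obtain ⟨p1, ⟨e1, c1⟩, p2, ⟨e2, c2, d20⟩, p3, ⟨e3, c3, d31⟩, p4, ⟨e4, c4, d42, d40⟩,
    p5, ⟨e5, c5, d53, d51⟩, p6, ⟨e6, c6, d64, d62, d60⟩, ⟨e7, nd⟩⟩ :=
    paths (vt u) (vt v) ha hb hab
  let g : Fin 8 → Fin 12 := ![vt u, p1, p2, p3, p4, p5, p6, vt v]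
  let f : Fin 8 → Fin n₁ ⊕ Fin n₂ :=
    ![u, rep h₁ h₂ p1, rep h₁ h₂ p2, rep h₁ h₂ p3, rep h₁ h₂ p4, rep h₁ h₂ p5, rep h₁ h₂ p6, v]
  have hfg : ∀ k, vt (f k) = g k := by
    intro k
    fin_cases k <;> first | rfl | exact vt_rep h₁ h₂ _
  have hg : Function.Injective g := inj8 _ _ _ _ _ _ _ _ nd
  have hf : Function.Injective f := by
    intro x y hxy
    apply hg
    rw [← hfg, ← hfg, hxy]
  apply copy_of _ f hf
  intro k
  have key : ∀ k : Fin 8, B (g k) (g (k + 1)) = true →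
      (Hg n₁ n₂ ⊔ fromEdgeSet {s(u, v)}).Adj (f k) (f (k + 1)) := by
    intro k hk
    have : (Hg n₁ n₂).Adj (f k) (f (k + 1)) := by
      rw [adj_iff, hfg, hfg]; exact hk
    exact Or.inl this
  fin_cases k
  · exact key 0 e1
  · exact key 1 e2
  · exact key 2 e3
  · exact key 3 e4
  · exact key 4 e5
  · exact key 5 e6
  · exact key 6 e7
  · right
    show (fromEdgeSet {s(u, v)}).Adj v u
    rw [fromEdgeSet_adj]
    refine ⟨?_, ?_⟩
    · rw [Sym2.eq_swap]; exact Set.mem_singleton _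
    · rw [hu, hv]; simp

/-- The graph is `C₈`-saturated relative to `K_{n₁,n₂}`. -/
theorem isSaturatedIn_Hg {n₁ n₂ : ℕ} (h₁ : 6 ≤ n₁) (h₂ : 6 ≤ n₂) :
    IsSaturatedIn (cycleGraph 8) (completeBipartiteGraph (Fin n₁) (Fin n₂)) (Hg n₁ n₂) where
  le := by
    rintro u v (⟨i, j, rfl, rfl, _⟩ | ⟨i, j, rfl, rfl, _⟩) <;> simp
  free := free n₁ n₂
  sat := by
    intro e
    induction e using Sym2.ind with
    | _ u v =>
      rintro ⟨he, hn⟩
      rw [mem_edgeSet] at he hn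
      rcases u with i | j <;> rcases v with i' | j'
      · simp at he
      · exact sat_lr h₁ h₂ i j' hn
      · rw [SimpleGraph.adj_comm] at hn
        rw [Sym2.eq_swap]
        exact sat_lr h₁ h₂ i' j hn
      · simp at he

lemma edgeSet_eq (n₁ n₂ : ℕ) : (Hg n₁ n₂).edgeSet =
    (fun p : Fin n₁ × Fin n₂ => s((Sum.inl p.1 : Fin n₁ ⊕ Fin n₂), Sum.inr p.2)) ''
      {p | A (ty p.1) (ty p.2) = true} := by
  ext e
  induction e using Sym2.ind with
  | _ u v =>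
    rw [mem_edgeSet]
    constructor
    · rintro (⟨i, j, rfl, rfl, h⟩ | ⟨i, j, rfl, rfl, h⟩)
      · exact ⟨(i, j), h, rfl⟩
      · exact ⟨(i, j), h, Sym2.eq_swap⟩
    · rintro ⟨⟨i, j⟩, h, h'⟩
      have h'' : s((Sum.inl i : Fin n₁ ⊕ Fin n₂), Sum.inr j) = s(u, v) := h'
      rw [← mem_edgeSet, ← h'', mem_edgeSet, adj_lr]
      exact h

lemma ncard_edgeSet (m₁ m₂ : ℕ) :
    (Hg (m₁ + 5) (m₂ + 5)).edgeSet.ncard = m₁ + m₂ + 13 := by
  rw [edgeSet_eq, Set.ncard_image_of_injective]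
  · have e : {p : Fin (m₁ + 5) × Fin (m₂ + 5) | A (ty p.1) (ty p.2) = true} =
      ((Finset.univ.filter fun p : Fin (m₁ + 5) × Fin (m₂ + 5) => A (ty p.1) (ty p.2) = true :
        Finset _) : Set _) := by ext; simp
    rw [e, Set.ncard_coe_finset, Finset.card_filter, Fintype.sum_prod_type]
    have t : ∀ {n : ℕ} (i : Fin n), ty (i.succ.succ.succ.succ.succ : Fin (n + 5)) = 5 := by
      intro n i
      apply Fin.ext
      show min (i.1 + 5) 5 = 5
      omega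
    have t0 : ∀ {n : ℕ}, ty (0 : Fin (n + 5)) = 0 := by intro n; rfl
    have t1 : ∀ {n : ℕ}, ty (Fin.succ (0 : Fin (n + 4))) = 1 := by intro n; rfl
    have t2 : ∀ {n : ℕ}, ty (Fin.succ (Fin.succ (0 : Fin (n + 3)))) = 2 := by intro n; rfl
    have t3 : ∀ {n : ℕ}, ty (Fin.succ (Fin.succ (Fin.succ (0 : Fin (n + 2))))) = 3 := by
      intro n; rfl
    have t4 : ∀ {n : ℕ}, ty (Fin.succ (Fin.succ (Fin.succ (Fin.succ (0 : Fin (n + 1)))))) = 4 := by
      intro n; rfl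
    have hs : ∀ {n : ℕ} (g : Fin 6 → ℕ), ∑ i : Fin (n + 5), g (ty i) =
        g 0 + (g 1 + (g 2 + (g 3 + (g 4 + n * g 5)))) := by
      intro n g
      rw [Fin.sum_univ_succ, Fin.sum_univ_succ, Fin.sum_univ_succ, Fin.sum_univ_succ,
        Fin.sum_univ_succ, t0, t1, t2, t3, t4]
      simp only [t, Finset.sum_const, Finset.card_univ, Fintype.card_fin, smul_eq_mul]
    have h1 : ∀ a : Fin 6, (∑ j : Fin (m₂ + 5), if A a (ty j) = true then 1 else 0) =
        (fun a : Fin 6 => ((if A a 0 = true then 1 else 0) + ((if A a 1 = true then 1 else 0) +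
        ((if A a 2 = true then 1 else 0) + ((if A a 3 = true then 1 else 0) +
        ((if A a 4 = true then 1 else 0) + m₂ * (if A a 5 = true then 1 else 0))))))) a := by
      intro a
      exact hs (fun b => if A a b = true then 1 else 0)
    calc (∑ i : Fin (m₁ + 5), ∑ j : Fin (m₂ + 5), if A (ty i) (ty j) = true then 1 else 0)
        = ∑ i : Fin (m₁ + 5), (fun a : Fin 6 => ((if A a 0 = true then 1 else 0) +
          ((if A a 1 = true then 1 else 0) +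
          ((if A a 2 = true then 1 else 0) + ((if A a 3 = true then 1 else 0) +
          ((if A a 4 = true then 1 else 0) + m₂ * (if A a 5 = true then 1 else 0))))))) (ty i) :=
          Finset.sum_congr rfl fun i _ => h1 (ty i)
      _ = _ := by
          rw [hs (n := m₁) (fun a : Fin 6 => ((if A a 0 = true then 1 else 0) +
          ((if A a 1 = true then 1 else 0) +
          ((if A a 2 = true then 1 else 0) + ((if A a 3 = true then 1 else 0) +
          ((if A a 4 = true then 1 else 0) + m₂ * (if A a 5 = true then 1 else 0)))))))]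
          simp [A]
          omega
  · rintro ⟨i, j⟩ ⟨i', j'⟩ h
    simp only [Sym2.eq_iff] at h
    rcases h with ⟨h1, h2⟩ | ⟨h1, h2⟩
    · rw [Sum.inl.inj h1, Sum.inr.inj h2]
    · cases h1

/-- **Main theorem.**  For all `n₁, n₂ ≥ 6` there is a `C₈`-saturated spanning subgraph of
`K_{n₁,n₂}` with `n₁ + n₂ + 3` edges, so that `sat(K_{n₁,n₂}, C₈) < n₁ + n₂ + 4² - 3·4 + 1`; in
particular the conjectured formula is false. -/
theorem result :
    (∀ n₁ n₂ : ℕ, 6 ≤ n₁ → 6 ≤ n₂ →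
      ∃ H : SimpleGraph (Fin n₁ ⊕ Fin n₂),
        IsSaturatedIn (cycleGraph 8) (completeBipartiteGraph (Fin n₁) (Fin n₂)) H ∧
        H.edgeSet.ncard = n₁ + n₂ + 3) ∧
    (∀ n₁ n₂ : ℕ, 6 ≤ n₁ → 6 ≤ n₂ →
      (sat (completeBipartiteGraph (Fin n₁) (Fin n₂)) (cycleGraph (2 * 4)) : ℤ) <
        n₁ + n₂ + 4 ^ 2 - 3 * 4 + 1) ∧
    ¬ (∀ l : ℕ, 4 ≤ l → ∀ n₁ n₂ : ℕ, l + 2 ≤ n₁ → l + 2 ≤ n₂ →
      (sat (completeBipartiteGraph (Fin n₁) (Fin n₂)) (cycleGraph (2 * l)) : ℤ) =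
        n₁ + n₂ + l ^ 2 - 3 * l + 1) := by
  have h1 : ∀ n₁ n₂ : ℕ, 6 ≤ n₁ → 6 ≤ n₂ →
      ∃ H : SimpleGraph (Fin n₁ ⊕ Fin n₂),
        IsSaturatedIn (cycleGraph 8) (completeBipartiteGraph (Fin n₁) (Fin n₂)) H ∧
        H.edgeSet.ncard = n₁ + n₂ + 3 := by
    intro n₁ n₂ h₁ h₂
    refine ⟨Hg n₁ n₂, isSaturatedIn_Hg h₁ h₂, ?_⟩
    obtain ⟨m₁, rfl⟩ := Nat.exists_eq_add_of_le' (show 5 ≤ n₁ by omega)
    obtain ⟨m₂, rfl⟩ := Nat.exists_eq_add_of_le' (show 5 ≤ n₂ by omega)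
    rw [ncard_edgeSet]
    omega
  have h2 : ∀ n₁ n₂ : ℕ, 6 ≤ n₁ → 6 ≤ n₂ →
      (sat (completeBipartiteGraph (Fin n₁) (Fin n₂)) (cycleGraph (2 * 4)) : ℤ) <
        n₁ + n₂ + 4 ^ 2 - 3 * 4 + 1 := by
    intro n₁ n₂ h₁ h₂
    have : sat (completeBipartiteGraph (Fin n₁) (Fin n₂)) (cycleGraph 8) ≤ n₁ + n₂ + 3 :=
      Nat.sInf_le (h1 n₁ n₂ h₁ h₂)
    have h3 : (sat (completeBipartiteGraph (Fin n₁) (Fin n₂)) (cycleGraph (2 * 4)) : ℤ) ≤
        (n₁ + n₂ + 3 : ℕ) := by exact_mod_cast this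
    push_cast at h3
    linarith
  refine ⟨h1, h2, ?_⟩
  intro h
  have h3 := h 4 le_rfl 6 6 le_rfl le_rfl
  have h4 := h2 6 6 le_rfl le_rfl
  push_cast at h3 h4
  linarith

end Pool.Agent.Results.MP_7875f2_co.EvenCycleFormulaFails
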